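import Pool.Agent.Helper11.CT.Defs2
import Pool.Agent.Helper11.CT.Cut

set_option autoImplicit false

/-!
# The classes of the world with second ties

Descriptors: coefficients of `p`, `l`, `q`, `k` (or `u`, `v`, `w`).
-/

noncomputable section

namespace Helper55.Q2

open Helper11.CT

abbrev KF := List (ℕ × List (ℤ × ℤ × List ℤ))

/-- known descriptors without `k` (order `l`, `q`) -/
def knN : Bool → List (List ℤ)
  | true => [[1], [-1, 1], [0, 1], [0, 2], [0, 3], [0, 4], [1, 1], [-1, 2]]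
  | false => [[1], [-1, 1], [0, 1], [0, 2], [0, 3], [0, 4]]

/-- `k` generic: variables `1 a b c p J E X r | D i` -/
def cG (ds t : ℤ) (kf : KF) : Cx where
  K := {
    nI := 9
    ds := ds
    P := [0, 0, 0, 0, 1]
    D := [0, 0, 0, 0, 0, 0, 0, 0, 0, 1]
    A := [0, 1]
    B := [0, 0, 1]
    C := [0, 0, 0, 1]
    J := [0, 0, 0, 0, 0, 1]
    gI := [[0, 0, 0, 0, 0, 0, 0, 0, 0, 1], [0, 0, 0, 0, 0, 1], [0, 0, 0, 0, 0, 0, 1],
      [0, 0, 0, 0, 0, 0, 0, 0, 0, 0, 1]]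
    gX := [[], [0, 0, -1, 0, 0, Int.neg ds], [0, 0, 0, 0, 0, 0, Int.neg ds],
      [0, 0, 0, 0, 0, 0, 0, 1]]
    gR := [[], [0, 0, 1, 1], [0, t], [0, 0, 0, 0, 0, 0, 0, 0, 1]]
    known := [[1], [-1, 1], [0, 1], [0, 2], [0, 3], [0, 4], [0, 0, 1], [1, 0, 1], [-1, 0, 1],
      [0, -1, 1], [1, -1, 1], [-1, 1, 1], [0, 1, 1]]
    kf := kf }
  E := [0, 0, 0, 0, 0, 0, 1]
  T := [0, t]
  kd := [0, 0, 0, 1]

/-- no generator `k`: variables `1 a b c p J E | D` -/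
def cN (ds t : ℤ) (kd : List ℤ) (kn : Bool) (kf : KF) : Cx where
  K := {
    nI := 7
    ds := ds
    P := [0, 0, 0, 0, 1]
    D := [0, 0, 0, 0, 0, 0, 0, 1]
    A := [0, 1]
    B := [0, 0, 1]
    C := [0, 0, 0, 1]
    J := [0, 0, 0, 0, 0, 1]
    gI := [[0, 0, 0, 0, 0, 0, 0, 1], [0, 0, 0, 0, 0, 1], [0, 0, 0, 0, 0, 0, 1]]
    gX := [[], [0, 0, -1, 0, 0, Int.neg ds], [0, 0, 0, 0, 0, 0, Int.neg ds]]
    gR := [[], [0, 0, 1, 1], [0, t]]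
    known := knN kn
    kf := kf }
  E := [0, 0, 0, 0, 0, 0, 1]
  T := [0, t]
  kd := kd

/-- generator `u` (abscissa `b`): variables `1 a b c p J E ru | D iu` -/
def cU (ds t : ℤ) (kd : List ℤ) (kn : Bool) (kf : KF) : Cx where
  K := {
    nI := 8
    ds := ds
    P := [0, 0, 0, 0, 1]
    D := [0, 0, 0, 0, 0, 0, 0, 0, 1]
    A := [0, 1]
    B := [0, 0, 1]
    C := [0, 0, 0, 1]
    J := [0, 0, 0, 0, 0, 1]
    gI := [[0, 0, 0, 0, 0, 0, 0, 0, 1], [0, 0, 0, 0, 0, 1], [0, 0, 0, 0, 0, 0, 1],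
      [0, 0, 0, 0, 0, 0, 0, 0, 0, 1]]
    gX := [[], [0, 0, -1, 0, 0, Int.neg ds], [0, 0, 0, 0, 0, 0, Int.neg ds], [0, 0, 1]]
    gR := [[], [0, 0, 1, 1], [0, t], [0, 0, 0, 0, 0, 0, 0, 1]]
    known := [0, 0, 1] :: knN kn
    kf := kf }
  E := [0, 0, 0, 0, 0, 0, 1]
  T := [0, t]
  kd := kd

/-- generator `v` (abscissa `0`): variables `1 a b c p J E ru | D iu` -/
def cV (ds t : ℤ) (kd : List ℤ) (kn : Bool) (kf : KF) : Cx where
  K := {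
    nI := 8
    ds := ds
    P := [0, 0, 0, 0, 1]
    D := [0, 0, 0, 0, 0, 0, 0, 0, 1]
    A := [0, 1]
    B := [0, 0, 1]
    C := [0, 0, 0, 1]
    J := [0, 0, 0, 0, 0, 1]
    gI := [[0, 0, 0, 0, 0, 0, 0, 0, 1], [0, 0, 0, 0, 0, 1], [0, 0, 0, 0, 0, 0, 1],
      [0, 0, 0, 0, 0, 0, 0, 0, 0, 1]]
    gX := [[], [0, 0, -1, 0, 0, Int.neg ds], [0, 0, 0, 0, 0, 0, Int.neg ds], []]
    gR := [[], [0, 0, 1, 1], [0, t], [0, 0, 0, 0, 0, 0, 0, 1]]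
    known := [0, 0, 1] :: [0, 0, 2] :: knN kn
    kf := kf }
  E := [0, 0, 0, 0, 0, 0, 1]
  T := [0, t]
  kd := kd

/-- generator `w` (`2 w = p`): variables `1 a b c J E ru | iu`, `p = 2 ru`, `D = 2 iu` -/
def cW (ds t : ℤ) (kd : List ℤ) (kn : Bool) (kf : KF) : Cx where
  K := {
    nI := 7
    ds := ds
    P := [0, 0, 0, 0, 0, 0, 2]
    D := [0, 0, 0, 0, 0, 0, 0, 2]
    A := [0, 1]
    B := [0, 0, 1]
    C := [0, 0, 0, 1]
    J := [0, 0, 0, 0, 1]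
    gI := [[0, 0, 0, 0, 0, 0, 0, 2], [0, 0, 0, 0, 1], [0, 0, 0, 0, 0, 1],
      [0, 0, 0, 0, 0, 0, 0, 1]]
    gX := [[], [0, 0, -1, 0, Int.neg ds], [0, 0, 0, 0, 0, Int.neg ds], []]
    gR := [[], [0, 0, 1, 1], [0, t], [0, 0, 0, 0, 0, 0, 1]]
    known := [0, 0, 1] :: knN kn
    kf := kf }
  E := [0, 0, 0, 0, 0, 1]
  T := [0, t]
  kd := kd

/-- forms of a class: `P`, `D`, `J`, `E`, index coordinate, abscissa, ordinate, row of `k` -/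
structure FQ where
  P : List ℤ
  D : List ℤ
  J : List ℤ
  E : List ℤ
  I : List ℤ
  Z : List ℤ
  S : List ℤ
  R : List ℤ

/-- descriptor of `k`: `0` generic, `1`: `q - p`, `2`: `2 p - q`, `3`: `p + l - q`, `4`: `p - l` -/
def kdq : ℕ → List ℤ
  | 0 => [0, 0, 0, 1]
  | 1 => [-1, 0, 1]
  | 2 => [2, 0, -1]
  | 3 => [1, 1, -1]
  | _ => [1, -1]

/-- `kd` of the class -/
def kdm : ℕ → List ℤ
  | 0 => [0, 0, 0, 1]
  | 1 => [-1, 0, 1]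
  | 2 => [2, 0, -1]
  | _ => []

/-- the forms; abscissa `fx + wx p`, ordinate `fx + fR + ws p` -/
def fkQ (M : Cx) (kd : List ℤ) (wx ws : ℤ) : FQ where
  P := M.K.P
  D := M.K.D
  J := M.K.J
  E := M.E
  I := fI M.K kd
  Z := axpy wx M.K.P (fx M.K kd)
  S := axpy ws M.K.P (axpy 1 (fR M.K kd) (fx M.K kd))
  R := axpy (Int.sub ws wx) M.K.P (fR M.K kd)

/-- the box -/
def kbx : List (ℤ × ℤ × List ℤ) :=
  [(1, 0, [0, 0, 1]), (-1, 0, [0, 0, 1]), (0, -1, [0, 1]), (0, 1, [0, 1])]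

/-- the `K` forms.  `reg`: `0, 1`: `T`-element; `2`: V, `3`: D, `4`: C; `5`: `S2`; `6`: PL.
`fb`: `0`: `b < 2 a`; `1`: `2 a ≤ b`; `2`: `2 a ≤ b` and `D < a - |c|` -/
def kfQ (ds : ℤ) (f : FQ) (reg fb : ℕ) : KF := match reg with
  | 0 => []
  | 1 => []
  | 3 => [(1, (0, Int.neg ds, axpy ds f.S []) :: kbx),
      (1, (Int.neg ds, 0, axpy ds f.S [0, 1, -1]) :: kbx)]
  | 5 => [(0, [(ds, 0, [0, 0, 1]), (Int.neg ds, 0, axpy (-1) [0, 0, 1] f.D), (0, -1, [0, 1]),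
      (0, 1, [0, 1])]),
    (0, [(-1, 0, [0, 0, 1]), (1, 0, [0, 0, 1]), (0, ds, [0, 1]),
      (0, Int.neg ds, axpy (-1) [0, 1] f.D)]),
    (match fb with
      | 0 => (1, [(0, 1, axpy (-1) f.S []), (0, -1, [0, 1]), (-1, 0, [0, 0, 1]),
          (1, 0, [0, 0, 1])])
      | _ => (2, [(-1, 0, f.Z), (1, 0, axpy (Int.neg ds) f.D f.Z), (-1, 0, [0, 0, 1]),
          (1, 0, [0, 0, 1]), (0, -1, [0, 1]), (0, 1, [0, 1])]))]
  | 6 => [(0, [(-1, 0, [0, 0, 1]), (1, 0, [0, 0, 1]), (0, -1, [0, 1]), (0, 1, [0, 1])])]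
  | _ => [(1, (Int.neg ds, 0, axpy ds f.Z []) :: kbx),
      (1, (0, Int.neg ds, axpy ds f.Z [0, -1, 1]) :: kbx)]

/-- `q + l`, `2 q - l` are known -/
def knq : ℕ → Bool
  | 1 => true
  | 2 => true
  | _ => false

/-- class data without `K` forms -/
def m0 (ds t : ℤ) (kq tok : ℕ) (kf : KF) : Cx := match kq with
  | 0 => cG ds t kf
  | _ => match tok with
    | 0 => cN ds t (kdm kq) (knq kq) kf
    | 1 => cU ds t (kdm kq) (knq kq) kf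
    | 2 => cV ds t (kdm kq) (knq kq) kf
    | _ => cW ds t (kdm kq) (knq kq) kf

/-- forms of a class -/
def fQ (ds t : ℤ) (kq : ℕ) (wx ws : ℤ) (tok : ℕ) : FQ := fkQ (m0 ds t kq tok []) (kdq kq) wx ws

/-- class data -/
def mQ (ds t : ℤ) (reg fb kq : ℕ) (wx ws : ℤ) (tok : ℕ) : Cx :=
  m0 ds t kq tok (kfQ ds (fQ ds t kq wx ws tok) reg fb)

/-! ### the facts (positive forms) -/

/-- `a - |c|` -/
def aK : Bool → List ℤ
  | true => [0, 1, 0, -1]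
  | false => [0, 1, 0, 1]

def f0 (f : FQ) : List (List ℤ) :=
  [[-1, 1], [-1, 0, 1], axpy (-2) [0, 1] f.P, axpy (-2) [0, 0, 1] f.P, f.J, axpy (-1) f.J f.D,
    axpy (-2) f.D f.P, axpy (-1) f.D f.E, axpy 1 f.J (axpy (-1) f.E f.D)]

def fc : Bool → List (List ℤ)
  | true => [[0, 0, 0, 1], [0, 1, 0, -1]]
  | false => [[0, 0, 0, -1], [0, 1, 0, 1]]

def fb0 (cs : Bool) (f : FQ) : ℕ → List (List ℤ)
  | 0 => [[0, 2, -1]]
  | 1 => [[1, -2, 1]]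
  | _ => [[1, -2, 1], axpy (-1) f.D (aK cs)]

def fk0 (f : FQ) : List (List ℤ) :=
  [f.I, axpy (-1) f.I f.D, axpy (-1) f.Z [0, 0, 1], axpy 1 f.Z [0, 0, 1],
    axpy (-1) f.S [0, 1], axpy 1 f.S [0, 1]]

def freg (cs : Bool) (ds : ℤ) (f : FQ) (fb : ℕ) : ℕ → List (List ℤ)
  | 0 => [axpy (-1) f.Z (aK cs), axpy 1 f.Z (aK cs),
      axpy 1 f.S (match cs with | true => [0, 0, 0, -1] | false => [0, 0, 0, 1])]
  | 1 => [axpy (-1) f.Z (aK cs), axpy 1 f.Z (aK cs),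
      axpy (-1) f.S (match cs with | true => [0, 0, 0, -1] | false => [0, 0, 0, 1])]
  | 2 => [axpy (Int.neg ds) f.Z (axpy (-1) [0, 0, 1] f.D), axpy ds f.R [0, 1, -1]]
  | 3 => [axpy (Int.neg ds) f.S (axpy (-1) [0, 1] f.D), axpy (Int.neg ds) f.R [0, -1, 1]]
  | 4 => [axpy (Int.neg ds) f.Z (axpy (-1) [0, 0, 1] f.D), axpy ds f.R [1, 1, -1],
      axpy (Int.neg ds) f.R [1, -1, 1]]
  | 5 => [axpy (-1) f.D (axpy ds f.Z [0, 0, 1]), axpy (-1) f.D (axpy ds f.S [0, 1]),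
      (match fb with
        | 0 => axpy 2 f.S (axpy (Int.neg ds) f.D [])
        | _ => axpy 2 f.Z (axpy (Int.neg ds) f.D []))]
  | _ => []

def fej (f : FQ) : ℕ → List (List ℤ)
  | 0 => []
  | 1 => [axpy (-2) f.J f.E]
  | 2 => [axpy 2 f.J (axpy (-1) f.E [])]
  | _ => [axpy (-1) f.J [2], axpy (-1) f.E [3], axpy 1 f.E [-1]]

def ftok : ℕ → List (List ℤ)
  | 0 => []
  | 1 => [[0, 0, 0, 0, 0, 0, 0, 0, 0, 1], [0, 0, 0, 0, 0, 0, 0, 0, 1, -1],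
      [0, 0, 0, 0, 1, 0, 0, 2], [0, 0, 0, 0, 1, 0, 0, -2]]
  | 2 => [[0, 0, 0, 0, 0, 0, 0, 0, 0, 1], [0, 0, 0, 0, 0, 0, 0, 0, 1, -2],
      [0, 0, 0, 0, 1, 0, 0, 2], [0, 0, 0, 0, 1, 0, 0, -2]]
  | _ => [[0, 0, 0, 0, 0, 0, 0, 1]]

/-- the facts of a class -/
def facQ (cs : Bool) (ds t : ℤ) (reg fb kq : ℕ) (wx ws : ℤ) (tok ej : ℕ) : List (List ℤ) :=
  f0 (fQ ds t kq wx ws tok) ++ fc cs ++ fb0 cs (fQ ds t kq wx ws tok) fb ++
    fk0 (fQ ds t kq wx ws tok) ++ freg cs ds (fQ ds t kq wx ws tok) fb reg ++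
    fej (fQ ds t kq wx ws tok) ej ++ ftok tok

/-- membership of a form -/
def pmem (e : List ℤ) : List (List ℤ) → Bool
  | [] => false
  | f :: F => leq f e || pmem e F

/-- the base list consists of facts and the tree is correct -/
def chkQ (M : Cx) (F : List (List ℤ)) (t : Tr2) (B : List Con) : Bool :=
  B.all (fun c => pmem c.2 F && (!c.1 || isI M.K c.2)) && chk2 M t B

theorem chkQ_of {M : Cx} {F : List (List ℤ)} {t : Tr2} {B : List Con}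
    (h1 : B.all (fun c => pmem c.2 F && (!c.1 || isI M.K c.2)) = true)
    (h2 : chk2 M t B = true) : chkQ M F t B = true := by
  unfold chkQ
  rw [h1, h2]
  rfl

/-- the class is closed -/
def Closed (cs : Bool) (ds t : ℤ) (reg fb kq : ℕ) (wx ws : ℤ) (tok ej : ℕ) : Prop :=
  ∃ (T : Tr2) (B : List Con),
    chkQ (mQ ds t reg fb kq wx ws tok) (facQ cs ds t reg fb kq wx ws tok ej) T B = true

end Helper55.Q2
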