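import Pool.Agent.Helper55.Q2.T.T_PLB1_1_m1_m1_0_u
import Pool.Agent.Helper55.Q2.T.T_PLB1_1_m1_m1_0_v
import Pool.Agent.Helper55.Q2.T.G00
import Pool.Agent.Helper55.Q2.T.T_PLB1_1_1_m1_0_u
import Pool.Agent.Helper55.Q2.T.G01
import Pool.Agent.Helper55.Q2.T.T_PLB2_m1_m1_1_0_ue2
import Pool.Agent.Helper55.Q2.T.G02
import Pool.Agent.Helper55.Q2.T.G03
import Pool.Agent.Helper55.Q2.T.G04
import Pool.Agent.Helper55.Q2.T.T_S1B_m1_m1_m1_D_G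
import Pool.Agent.Helper55.Q2.T.T_S1B_m1_m1_m1_V_G
import Pool.Agent.Helper55.Q2.T.G05
import Pool.Agent.Helper55.Q2.T.T_S1B_m1_m1_1_D_G
import Pool.Agent.Helper55.Q2.T.T_S1B_m1_m1_1_V_G
import Pool.Agent.Helper55.Q2.T.G06
import Pool.Agent.Helper55.Q2.T.T_S1B_m1_1_1_D_G
import Pool.Agent.Helper55.Q2.T.T_S1B_m1_1_1_V_G
import Pool.Agent.Helper55.Q2.T.G07
import Pool.Agent.Helper55.Q2.T.T_S1B_1_m1_m1_D_G
import Pool.Agent.Helper55.Q2.T.T_S1B_1_m1_m1_V_G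
import Pool.Agent.Helper55.Q2.T.G08
import Pool.Agent.Helper55.Q2.T.T_S1B_1_m1_1_V_G
import Pool.Agent.Helper55.Q2.T.G09
import Pool.Agent.Helper55.Q2.T.T_S1B_1_1_m1_D_G
import Pool.Agent.Helper55.Q2.T.T_S1B_1_1_m1_V_G
import Pool.Agent.Helper55.Q2.T.G10
import Pool.Agent.Helper55.Q2.T.T_S1B_1_1_1_V_G
import Pool.Agent.Helper55.Q2.T.T_S2B_m1_m1_m1_G
import Pool.Agent.Helper55.Q2.T.G11
import Pool.Agent.Helper55.Q2.T.G12
import Pool.Agent.Helper55.Q2.T.G13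
import Pool.Agent.Helper55.Q2.T.G14
import Pool.Agent.Helper55.Q2.T.T_S2B_1_1_1_G
import Pool.Agent.Helper55.Q2.T.G15
import Pool.Agent.Helper55.Q2.T.G16
import Pool.Agent.Helper55.Q2.T.G17
import Pool.Agent.Helper55.Q2.T.G18
import Pool.Agent.Helper55.Q2.T.G19
import Pool.Agent.Helper55.Q2.T.G20
import Pool.Agent.Helper55.Q2.T.G21

/-!
# All trees with `q < p + l`
-/
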